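import Pool.Agent.W946.SzDist

set_option autoImplicit false

/-!
# Circuits for matrix multiplication which compute few linear forms

The linear parts in a set `D` of the variables; the count.
-/

namespace Pool.Agent.H719.FL

open Finset Pool.Agent.H88R3.MM Pool.Agent.H522R2 Pool.Agent.H522R2.Circuit Pool.Agent.W946.Kos
  Pool.Agent.W946.Sz

section cut

variable {F V : Type*} [Field F] [DecidableEq V]

/-- the new label of a node -/
noncomputable def cutGate (D : Finset V) {k : ℕ} : Gate F V k → Gate F {x // x ∈ D} k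
  | .var x => if h : x ∈ D then .var ⟨x, h⟩ else .const 0
  | .const c => .const c
  | .add i j => .add i j
  | .mul i j => .mul i j

/-- all variables outside `D` are replaced by `0` -/
noncomputable abbrev cut (C : Circuit F V) (D : Finset V) : Circuit F {x // x ∈ D} where
  nodes := C.nodes
  gate k := cutGate D (C.gate k)

theorem D1_X' (x z : V) : D1 x (MvPolynomial.X z : MvPolynomial V F) = if x = z then 1 else 0 := by
  unfold D1
  rw [MvPolynomial.pderiv_X, Pi.single_apply]
  by_cases h : z = x
  · rw [if_pos h, if_pos h.symm, map_one]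
  · rw [if_neg h, if_neg (fun h' => h h'.symm), map_zero]

theorem cut_poly (C : Circuit F V) (D : Finset V) (k : Fin C.nodes) :
    MvPolynomial.constantCoeff ((cut C D).poly k) = MvPolynomial.constantCoeff (C.poly k) ∧
      ∀ x : {x // x ∈ D}, D1 x ((cut C D).poly k) = D1 x.1 (C.poly k) := by
  obtain ⟨k, hk⟩ := k
  induction k using Nat.strong_induction_on with
  | _ k ih =>
    have hg : (cut C D).gate ⟨k, hk⟩ = cutGate D (C.gate ⟨k, hk⟩) := rfl
    cases h : C.gate ⟨k, hk⟩ with
    | var z =>
      rw [h] at hg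
      simp only [cutGate] at hg
      rw [poly_var h]
      by_cases hz : z ∈ D
      · rw [dif_pos hz] at hg
        rw [poly_var hg]
        refine ⟨by simp, fun x => ?_⟩
        rw [D1_X', D1_X']
        refine if_congr ?_ rfl rfl
        rw [Subtype.ext_iff]
      · rw [dif_neg hz] at hg
        rw [poly_const hg]
        refine ⟨by simp, fun x => ?_⟩
        rw [D1_C, D1_X', if_neg]
        rintro rfl
        exact hz x.2
    | const c =>
      rw [h] at hg
      simp only [cutGate] at hg
      rw [poly_const h, poly_const hg]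
      exact ⟨by simp, fun x => by rw [D1_C, D1_C]⟩
    | add i j =>
      rw [h] at hg
      simp only [cutGate] at hg
      rw [poly_add h, poly_add hg]
      obtain ⟨h1, h2⟩ := ih i i.2 (i.2.trans hk)
      obtain ⟨h3, h4⟩ := ih j j.2 (j.2.trans hk)
      refine ⟨?_, fun x => ?_⟩
      · rw [map_add, map_add]
        exact congrArg₂ _ h1 h3
      · rw [D1_add, D1_add]
        exact congrArg₂ _ (h2 x) (h4 x)
    | mul i j =>
      rw [h] at hg
      simp only [cutGate] at hg
      rw [poly_mul h, poly_mul hg]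
      obtain ⟨h1, h2⟩ := ih i i.2 (i.2.trans hk)
      obtain ⟨h3, h4⟩ := ih j j.2 (j.2.trans hk)
      refine ⟨?_, fun x => ?_⟩
      · rw [map_mul, map_mul]
        exact congrArg₂ _ h1 h3
      · rw [D1_mul, D1_mul]
        exact congrArg₂ _ (congrArg₂ _ h1 (h4 x)) (congrArg₂ _ h3 (h2 x))

theorem cut_lin (C : Circuit F V) (D : Finset V) (k : Fin C.nodes) (x : {x // x ∈ D}) :
    lin (cut C D) k x = lin C k x.1 := (cut_poly C D k).2 x

/-- a vector on `D`, extended by zero -/
def ext (D : Finset V) (X : {x // x ∈ D} → F) : V → F := fun z => if h : z ∈ D then X ⟨z, h⟩ else 0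

theorem ext_ne_zero {D : Finset V} {X : {x // x ∈ D} → F} (h : X ≠ 0) : ext D X ≠ 0 := by
  intro h0
  apply h
  funext x
  have := congrFun h0 x.1
  rw [ext, dif_pos x.2] at this
  exact this

theorem lin_ext [Fintype V] (C : Circuit F V) (D : Finset V) (k : Fin C.nodes)
    (X : {x // x ∈ D} → F) : dotProduct (lin C k) (ext D X) = dotProduct (lin (cut C D) k) X := by
  unfold dotProduct
  rw [← Finset.sum_subset (subset_univ D), ← Finset.sum_coe_sort D]
  · refine Finset.sum_congr rfl fun x _ => ?_
    rw [ext, dif_pos x.2, cut_lin]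
  · intro z _ hz
    rw [ext, dif_neg hz, mul_zero]

end cut

section mm

variable {F : Type*} [Field F] {m : ℕ} {C : Circuit F (Vars m)} {D : Finset (Vars m)}

open Classical in
/-- the products which use a symbol -/
noncomputable def use (S : Sys (cut C D)) (s : {x // x ∈ D} ⊕ Fin (cut C D).nodes) :
    Finset (Fin C.nodes) :=
  univ.filter fun g => C.IsNonscalar g ∧ (S.rep (inp C g).1 = s ∨ S.rep (inp C g).2 = s)

open Classical in
/-- the symbols which are not used often -/
noncomputable def light (S : Sys (cut C D)) (Δ U : ℕ) :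
    Finset ({x // x ∈ D} ⊕ Fin (cut C D).nodes) :=
  (EE (cut C D)).filter fun s => (eqs S.H (CC (cut C D)) s).card ≤ Δ ∧ (use S s).card ≤ U

theorem dist (S : Sys (cut C D)) (hC : ∀ i j, ∃ k : Fin C.nodes, C.poly k = entry F m i j)
    {Δ U T : ℕ} (h : U * (T - 1) < m) : Dist S.H (light S Δ U) (CC (cut C D)) T := by
  classical
  intro x hx h0
  by_contra hcon
  push Not at hcon
  have hX := ext_ne_zero (S.ne_zero (filter_subset _ _) hx h0)
  have h1 := act_card C hC hX
  have hdot : ∀ u : Fin C.nodes, dotProduct (lin C u) (ext D fun z => x (Sum.inl z)) =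
      S.coef u * x (S.rep u) := fun u => (lin_ext C D u _).trans (S.lin_dot hx u)
  have h2 : act C (ext D fun z => x (Sum.inl z)) ⊆ (spt (light S Δ U) x).biUnion (use S) := by
    intro g hg
    unfold act at hg
    rw [mem_filter, hdot, hdot] at hg
    rw [mem_biUnion]
    rcases hg.2.2 with h3 | h3
    · have h4 : x (S.rep (inp C g).1) ≠ 0 := right_ne_zero_of_mul h3
      refine ⟨S.rep (inp C g).1, ?_, ?_⟩
      · unfold spt
        rw [mem_filter]
        refine ⟨?_, h4⟩
        by_contra h5
        exact h4 (hx.1 _ h5)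
      · unfold use
        rw [mem_filter]
        exact ⟨mem_univ _, hg.2.1, Or.inl rfl⟩
    · have h4 : x (S.rep (inp C g).2) ≠ 0 := right_ne_zero_of_mul h3
      refine ⟨S.rep (inp C g).2, ?_, ?_⟩
      · unfold spt
        rw [mem_filter]
        refine ⟨?_, h4⟩
        by_contra h5
        exact h4 (hx.1 _ h5)
      · unfold use
        rw [mem_filter]
        exact ⟨mem_univ _, hg.2.1, Or.inr rfl⟩
  have h3 : (act C (ext D fun z => x (Sum.inl z))).card ≤ (spt (light S Δ U) x).card * U := by
    refine (card_le_card h2).trans (card_biUnion_le.trans ?_)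
    refine (sum_le_card_nsmul _ _ U fun s hs => ?_).trans (le_of_eq (smul_eq_mul _ _))
    unfold spt light at hs
    rw [mem_filter, mem_filter] at hs
    exact hs.1.2.2
  have h4 : (spt (light S Δ U) x).card * U ≤ (T - 1) * U :=
    Nat.mul_le_mul_right _ (by omega)
  rw [mul_comm] at h
  omega

theorem sum_use (S : Sys (cut C D)) :
    ∑ s ∈ EE (cut C D), (use S s).card ≤ 2 * C.nonscalarCount := by
  classical
  have h1 : ∑ s ∈ EE (cut C D), (use S s).card ≤ ∑ s, (use S s).card :=
    sum_le_sum_of_subset (subset_univ _)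
  refine h1.trans ?_
  unfold use
  simp only [card_filter]
  rw [sum_comm, nonscalarCount_eq C, card_filter, mul_sum]
  refine sum_le_sum fun g _ => ?_
  by_cases hg : C.IsNonscalar g
  · rw [if_pos hg]
    simp only [hg, true_and]
    refine (le_of_eq (card_filter (fun s => S.rep (inp C g).1 = s ∨ S.rep (inp C g).2 = s)
      univ).symm).trans ?_
    refine (card_le_card (t := {S.rep (inp C g).1, S.rep (inp C g).2}) ?_).trans card_le_two
    intro s hs
    rw [mem_filter] at hs
    rw [mem_insert, mem_singleton]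
    rcases hs.2 with h | h
    · exact Or.inl h.symm
    · exact Or.inr h.symm
  · simp [hg]

theorem heavy (S : Sys (cut C D)) (Δ U : ℕ) :
    ((EE (cut C D)).card : ℝ) ≤ (light S Δ U).card + 3 * (CC (cut C D)).card / (Δ + 1) +
      2 * C.nonscalarCount / (U + 1) := by
  classical
  have h1 : ∑ s ∈ EE (cut C D), (eqs S.H (CC (cut C D)) s).card ≤ 3 * (CC (cut C D)).card := by
    rw [count_inc]
    refine (sum_le_card_nsmul _ _ 3 fun c _ => S.row_card _ c).trans (le_of_eq ?_)
    rw [smul_eq_mul, mul_comm]
  have h2 := sum_use S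
  have h1' : (∑ s ∈ EE (cut C D), ((eqs S.H (CC (cut C D)) s).card : ℝ)) ≤
      3 * (CC (cut C D)).card := by exact_mod_cast h1
  have h2' : (∑ s ∈ EE (cut C D), ((use S s).card : ℝ)) ≤ 2 * C.nonscalarCount := by
    exact_mod_cast h2
  have hΔ : (0 : ℝ) < Δ + 1 := by positivity
  have hU : (0 : ℝ) < U + 1 := by positivity
  have h3 : ∑ s ∈ EE (cut C D), (1 : ℝ) ≤ ∑ s ∈ EE (cut C D),
      ((if (eqs S.H (CC (cut C D)) s).card ≤ Δ ∧ (use S s).card ≤ U then (1 : ℝ) else 0) +
        ((eqs S.H (CC (cut C D)) s).card / (Δ + 1) + (use S s).card / (U + 1))) := by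
    refine sum_le_sum fun s _ => ?_
    have e1 : (0 : ℝ) ≤ (eqs S.H (CC (cut C D)) s).card / (Δ + 1) := by positivity
    have e2 : (0 : ℝ) ≤ (use S s).card / (U + 1) := by positivity
    by_cases h : (eqs S.H (CC (cut C D)) s).card ≤ Δ ∧ (use S s).card ≤ U
    · rw [if_pos h]
      linarith
    · rw [if_neg h]
      rw [not_and_or] at h
      rcases h with h | h
      · have : (1 : ℝ) ≤ (eqs S.H (CC (cut C D)) s).card / (Δ + 1) := by
          rw [le_div_iff₀ hΔ, one_mul]
          exact_mod_cast (show Δ + 1 ≤ (eqs S.H (CC (cut C D)) s).card by omega)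
        linarith
      · have : (1 : ℝ) ≤ (use S s).card / (U + 1) := by
          rw [le_div_iff₀ hU, one_mul]
          exact_mod_cast (show U + 1 ≤ (use S s).card by omega)
        linarith
  rw [sum_const, nsmul_eq_mul, mul_one, sum_add_distrib, sum_add_distrib, ← sum_div,
    ← sum_div] at h3
  have h4 : ∑ s ∈ EE (cut C D), (if (eqs S.H (CC (cut C D)) s).card ≤ Δ ∧ (use S s).card ≤ U
      then (1 : ℝ) else 0) = (light S Δ U).card := by
    rw [← sum_filter, sum_const, nsmul_eq_mul, mul_one]
    rfl
  rw [h4] at h3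
  have h5 : (∑ s ∈ EE (cut C D), ((eqs S.H (CC (cut C D)) s).card : ℝ)) / (Δ + 1) ≤
      3 * (CC (cut C D)).card / (Δ + 1) := by gcongr
  have h6 : (∑ s ∈ EE (cut C D), ((use S s).card : ℝ)) / (U + 1) ≤
      2 * C.nonscalarCount / (U + 1) := by gcongr
  linarith

end mm

end Pool.Agent.H719.FL
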