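import Pool.Agent.H719.FL.Core

set_option autoImplicit false

/-!
# Circuits for matrix multiplication which compute few linear forms: the bound
-/

namespace Pool.Agent.H719.FL

open Finset Pool.Agent.H88R3.MM Pool.Agent.H522R2 Pool.Agent.H522R2.Circuit Pool.Agent.W946.Kos
  Pool.Agent.W946.Sz

/-- the number of terms for the parameters -/
theorem exists_i {ε : ℝ} (hε : 0 < ε) : ∃ c : ℝ, 0 < c ∧ ∀ N : ℕ, 1 ≤ N →
    ∃ i : ℕ, 1 ≤ i ∧ 3 * (N : ℝ) ≤ (1 + ε) ^ i ∧ (i : ℝ) ≤ c * (1 + Real.log N) := by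
  have hl : 0 < Real.log (1 + ε) := Real.log_pos (by linarith)
  refine ⟨2 / Real.log (1 + ε) + 2, by positivity, fun N hN => ?_⟩
  have hN' : (1 : ℝ) ≤ N := by exact_mod_cast hN
  have hlogN : 0 ≤ Real.log N := Real.log_nonneg hN'
  have hlog3 : Real.log 3 ≤ 2 := by
    have := Real.log_le_sub_one_of_pos (show (0 : ℝ) < 3 by norm_num)
    linarith
  refine ⟨⌈Real.log (3 * N) / Real.log (1 + ε)⌉₊ + 1, by omega, ?_, ?_⟩
  · have h1 : Real.log (3 * N) / Real.log (1 + ε) ≤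
        (⌈Real.log (3 * N) / Real.log (1 + ε)⌉₊ + 1 : ℕ) := by
      push_cast
      have := Nat.le_ceil (Real.log (3 * N) / Real.log (1 + ε))
      linarith
    rw [div_le_iff₀ hl, ← Real.log_pow] at h1
    exact (Real.log_le_log_iff (by positivity) (by positivity)).1 h1
  · have h1 : (0 : ℝ) ≤ Real.log (3 * N) / Real.log (1 + ε) :=
      div_nonneg (Real.log_nonneg (by linarith)) hl.le
    have h2 := Nat.ceil_lt_add_one h1
    have h3 : Real.log (3 * N) / Real.log (1 + ε) ≤ 2 / Real.log (1 + ε) * (1 + Real.log N) := by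
      rw [div_mul_eq_mul_div, div_le_div_iff_of_pos_right hl,
        Real.log_mul (by norm_num) (by linarith)]
      linarith
    push_cast
    nlinarith

universe u

theorem bound (η : ℝ) (hη : 0 < η) : ∃ K : ℝ, 0 < K ∧ ∀ (F : Type u) [Field F] (m : ℕ)
    (C : Circuit F (Vars m)), (∀ i j, ∃ k : Fin C.nodes, C.poly k = entry F m i j) →
    ∀ D : Finset (Vars m), D.Nonempty →
      ((CC (cut C D)).card : ℝ) ≤ (3 - η) * D.card →
      (m : ℝ) * D.card ≤ K * (1 + Real.log D.card) * C.nonscalarCount := by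
  -- we may assume that `η ≤ 1`
  wlog hη1 : η ≤ 1 generalizing η
  · obtain ⟨K, hK, h⟩ := this 1 one_pos le_rfl
    refine ⟨K, hK, fun F _ m C hC D hD hcc => h F m C hC D hD (hcc.trans ?_)⟩
    have : (0 : ℝ) ≤ D.card := by positivity
    nlinarith
  obtain ⟨c, hc, hi⟩ := exists_i (ε := η / 12) (by positivity)
  obtain ⟨Δ, hΔ⟩ := exists_nat_gt (108 / η)
  obtain ⟨ρ, hρ⟩ := pow_unbounded_of_one_lt (12 / η) (show (1 : ℝ) < 2 by norm_num)
  set P : ℝ := (1 + (Δ : ℝ)) ^ ρ with hP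
  have hP0 : 0 < P := by positivity
  refine ⟨24 / η * (P * (4 * c + 3)), by positivity, fun F _ m C hC D hD hcc => ?_⟩
  classical
  by_contra hcon
  push Not at hcon
  obtain ⟨z, hz⟩ := hD
  have : Nonempty {x // x ∈ D} := ⟨⟨z, hz⟩⟩
  obtain ⟨S⟩ := exists_sys (cut C D)
  have hN1 : 1 ≤ D.card := card_pos.2 ⟨z, hz⟩
  obtain ⟨i, hi1, hi2, hi3⟩ := hi D.card hN1
  set N : ℝ := (D.card : ℝ) with hN
  have hN1' : (1 : ℝ) ≤ N := by rw [hN]; exact_mod_cast hN1
  set r : ℝ := (C.nonscalarCount : ℝ) with hr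
  have hr0 : 0 ≤ r := by positivity
  set G : ℝ := ((CC (cut C D)).card : ℝ) with hG
  have hlog : 0 ≤ Real.log N := Real.log_nonneg hN1'
  -- the parameters
  obtain ⟨U, hU⟩ : ∃ U : ℕ, U = ⌊24 * r / (η * N)⌋₊ := ⟨_, rfl⟩
  obtain ⟨T, hT⟩ : ∃ T : ℕ, T = (1 + Δ) ^ ρ * (4 * i + 3) := ⟨_, rfl⟩
  have hηN : 0 < η * N := by positivity
  have hU1 : (U : ℝ) ≤ 24 * r / (η * N) := by
    rw [hU]
    exact Nat.floor_le (by positivity)
  have hU2 : 24 * r / (η * N) < U + 1 := by
    rw [hU]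
    exact Nat.lt_floor_add_one _
  have hTr : (T : ℝ) ≤ P * (4 * c + 3) * (1 + Real.log N) := by
    rw [hT]
    push_cast
    rw [← hP, mul_assoc]
    refine mul_le_mul_of_nonneg_left ?_ hP0.le
    nlinarith
  have hUT : U * (T - 1) < m := by
    have h1 : (U : ℝ) * T < m := by
      have h2 : (U : ℝ) * T ≤ 24 * r / (η * N) * (P * (4 * c + 3) * (1 + Real.log N)) :=
        mul_le_mul hU1 hTr (by positivity) (by positivity)
      refine lt_of_le_of_lt h2 ?_
      rw [div_mul_eq_mul_div, div_lt_iff₀ hηN]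
      have h3 : 24 / η * (P * (4 * c + 3)) * (1 + Real.log N) * r * η =
          24 * r * (P * (4 * c + 3) * (1 + Real.log N)) := by
        field_simp
      rw [← h3]
      nlinarith
    have h4 : U * T < m := by exact_mod_cast h1
    exact lt_of_le_of_lt (Nat.mul_le_mul_left _ (Nat.sub_le _ _)) h4
  have hd := dist S hC (Δ := Δ) (U := U) (T := T) hUT
  have hG3 : G ≤ 3 * N := by nlinarith
  have hrounds := rounds (H := S.H) (Δ := Δ) (ε := η / 12) (by positivity) hi1 ρ (light S Δ U)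
    (CC (cut C D)) (fun v _ => S.row_card _ v) (fun e he => (mem_filter.1 he).2.1)
    (hG3.trans hi2) (by rw [← hT]; exact hd)
  have hcard : ((EE (cut C D)).card : ℝ) = N + G := by
    rw [card_EE, Fintype.card_coe]
    push_cast
    rfl
  have hheavy := heavy S Δ U
  rw [hcard] at hheavy
  set E : ℝ := ((light S Δ U).card : ℝ) with hE
  have hEle : E ≤ N + G := by
    have h1 : (light S Δ U).card ≤ (EE (cut C D)).card := card_le_card (filter_subset _ _)
    rw [← hcard, hE]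
    exact_mod_cast h1
  have hΔ1 : 3 * G / (Δ + 1) ≤ η / 12 * N := by
    rw [div_le_iff₀ (by positivity)]
    rw [div_lt_iff₀ hη] at hΔ
    have h1 : 108 * N ≤ Δ * η * N := mul_le_mul_of_nonneg_right hΔ.le (by linarith)
    have h2 : η / 12 * N * (Δ + 1) = Δ * η * N / 12 + η * N / 12 := by ring
    rw [h2]
    linarith
  have hU3 : 2 * r / (U + 1) ≤ η / 12 * N := by
    rw [div_le_iff₀ (by positivity)]
    rw [div_lt_iff₀ hηN] at hU2
    have h2 : η / 12 * N * (U + 1) = (U + 1) * (η * N) / 12 := by ring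
    rw [h2]
    linarith
  have hK' : N * (1 - η / 6) ≤ E - G := by
    have : ((C.nonscalarCount : ℕ) : ℝ) = r := rfl
    linarith
  have h5 : N * (η / 4) ≤ 3 * (E - G) - (1 + η / 12) * G := by
    have h6 : (1 + η / 12) * G ≤ (1 + η / 12) * ((3 - η) * N) :=
      mul_le_mul_of_nonneg_left hcc (by positivity)
    have h7 : 0 ≤ η ^ 2 * N := by positivity
    have h8 : (1 + η / 12) * ((3 - η) * N) = 3 * N - 3 / 4 * (η * N) - η ^ 2 * N / 12 := by ring
    have h9 : N * (1 - η / 6) = N - η * N / 6 := by ring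
    have h10 : N * (η / 4) = η * N / 4 := by ring
    rw [h8] at h6
    rw [h9] at hK'
    rw [h10]
    linarith
  have h6 : (2 : ℝ) ^ ρ * (N * (η / 4)) ≤ 3 * N := by
    have h7 := mul_le_mul_of_nonneg_left h5 (show (0 : ℝ) ≤ 2 ^ ρ by positivity)
    have h8 : 3 * (E - G) ≤ 3 * N := by linarith
    exact h7.trans (hrounds.trans h8)
  rw [div_lt_iff₀ hη] at hρ
  have h7 : 12 * N < (2 : ℝ) ^ ρ * η * N := mul_lt_mul_of_pos_right hρ (by linarith)
  have h8 : (2 : ℝ) ^ ρ * (N * (η / 4)) = (2 : ℝ) ^ ρ * η * N / 4 := by ring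
  rw [h8] at h6
  linarith

end Pool.Agent.H719.FL
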